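import Mathlib
import Pool.Agent.Helper100.SubchromData

namespace Pool.Agent.Results.MP_02b0aa_co.SmallValues

open Pool.Agent.Helper100.SubchromData

/-- `X` is a subcolour class of `G`: `G[X]` contains no induced path on three vertices `a, b, c`, that is, `G[X]` is
a disjoint union of complete graphs. -/
def Cluster {V : Type} (G : SimpleGraph V) (X : Set V) : Prop :=
  ∀ a ∈ X, ∀ b ∈ X, ∀ c ∈ X, G.Adj a b → G.Adj b c → a ≠ c → G.Adj a c

/-- the vertex set splits into `k` pairwise disjoint subcolour classes, the fibres of `f` -/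
def SubCol {V : Type} (G : SimpleGraph V) (k : ℕ) : Prop :=
  ∃ f : V → Fin k, ∀ i, Cluster G {v | f v = i}

/-- the subchromatic number -/
noncomputable def chiS {V : Type} (G : SimpleGraph V) : ℕ := sInf {k | SubCol G k}

/-- the largest subchromatic number of a graph with `n` vertices -/
noncomputable def S (n : ℕ) : ℕ := sSup (Set.range fun G : SimpleGraph (Fin n) => chiS G)

/-! ### basic facts -/

def Good {V : Type} (G : SimpleGraph V) (f : V → ℕ) : Prop :=
  ∀ a b c, f a = f b → f b = f c → G.Adj a b → G.Adj b c → a ≠ c → G.Adj a c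

theorem subcol_of {V : Type} {G : SimpleGraph V} {k : ℕ} (f : V → ℕ) (hf : ∀ v, f v < k) (h : Good G f) :
    SubCol G k := by
  refine ⟨fun v => ⟨f v, hf v⟩, fun i a ha b hb c hc => ?_⟩
  simp only [Set.mem_ofPred_eq] at ha hb hc
  have h1 : f a = i := by rw [← ha]
  have h2 : f b = i := by rw [← hb]
  have h3 : f c = i := by rw [← hc]
  exact h a b c (by rw [h1, h2]) (by rw [h2, h3])

theorem subcol_out {V : Type} {G : SimpleGraph V} {k : ℕ} (h : SubCol G k) :
    ∃ f : V → ℕ, (∀ v, f v < k) ∧ Good G f := by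
  obtain ⟨f, hf⟩ := h
  refine ⟨fun v => (f v : ℕ), fun v => (f v).2, fun a b c h1 h2 => ?_⟩
  have h1' : f a = f b := Fin.ext h1
  have h2' : f b = f c := Fin.ext h2
  exact hf (f b) a h1' b rfl c h2'.symm

theorem subcol_mono {V : Type} {G : SimpleGraph V} {k l : ℕ} (h : SubCol G k) (hk : k ≤ l) : SubCol G l := by
  obtain ⟨f, h1, h2⟩ := subcol_out h
  exact subcol_of f (fun v => lt_of_lt_of_le (h1 v) hk) h2

theorem subcol_self {n : ℕ} (G : SimpleGraph (Fin n)) : SubCol G n := by
  refine subcol_of (fun v => (v : ℕ)) (fun v => v.2) ?_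
  intro a b c h1 h2 _ _ hac
  exact absurd (Fin.ext (h1.trans h2)) hac

theorem chiS_le_iff {n k : ℕ} (G : SimpleGraph (Fin n)) : chiS G ≤ k ↔ SubCol G k := by
  constructor
  · intro h
    have h1 : SubCol G (chiS G) := Nat.sInf_mem (s := {k | SubCol G k}) ⟨n, subcol_self G⟩
    exact subcol_mono h1 h
  · intro h
    exact Nat.sInf_le h

theorem S_le_iff {n k : ℕ} : S n ≤ k ↔ ∀ G : SimpleGraph (Fin n), SubCol G k := by
  have hb : BddAbove (Set.range fun G : SimpleGraph (Fin n) => chiS G) := by
    refine ⟨n, ?_⟩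
    rintro _ ⟨G, rfl⟩
    exact (chiS_le_iff G).mpr (subcol_self G)
  constructor
  · intro h G
    exact (chiS_le_iff G).mp (le_trans (le_csSup hb ⟨G, rfl⟩) h)
  · intro h
    apply csSup_le (Set.range_nonempty _)
    rintro _ ⟨G, rfl⟩
    exact (chiS_le_iff G).mpr (h G)

theorem general {n k : ℕ} (h : ∀ G : SimpleGraph (Fin n), SubCol G k) (V : Type) [Fintype V]
    (hV : Fintype.card V ≤ n) (G : SimpleGraph V) : SubCol G k := by
  obtain ⟨e⟩ : Nonempty (V ↪ Fin n) := Function.Embedding.nonempty_of_card_le (by simpa using hV)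
  obtain ⟨f, h1, h2⟩ := subcol_out (h (G.map e))
  refine subcol_of (fun v => f (e v)) (fun v => h1 _) ?_
  intro a b c hab hbc aab abc hac
  have := h2 (e a) (e b) (e c) hab hbc (SimpleGraph.map_adj_apply.mpr aab) (SimpleGraph.map_adj_apply.mpr abc)
    (fun h => hac (e.injective h))
  exact SimpleGraph.map_adj_apply.mp this

theorem subcol_insert {V : Type} {G : SimpleGraph V} {k : ℕ} (X : Set V) (hX : Cluster G X)
    (h : SubCol (G.induce Xᶜ) k) : SubCol G (k + 1) := by
  classical
  obtain ⟨f, h1, h2⟩ := subcol_out h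
  refine subcol_of (fun v => if hv : v ∈ Xᶜ then f ⟨v, hv⟩ else k) ?_ ?_
  · intro v
    by_cases hv : v ∈ Xᶜ
    · simp only [hv, dif_pos]
      exact lt_trans (h1 _) (Nat.lt_succ_self k)
    · simp only [hv, dif_neg, not_false_eq_true]
      exact Nat.lt_succ_self k
  · intro a b c hab hbc aab abc hac
    by_cases ha : a ∈ Xᶜ <;> by_cases hb : b ∈ Xᶜ <;> by_cases hc : c ∈ Xᶜ <;>
      simp only [ha, hb, hc, dif_pos, dif_neg, not_false_eq_true] at hab hbc
    · exact h2 ⟨a, ha⟩ ⟨b, hb⟩ ⟨c, hc⟩ hab hbc aab abc (fun h => hac (congrArg Subtype.val h))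
    · exact absurd hbc (ne_of_lt (h1 _))
    · exact absurd hab (ne_of_lt (h1 _))
    · exact absurd hab (ne_of_lt (h1 _))
    · exact absurd hab.symm (ne_of_lt (h1 _))
    · exact absurd hab.symm (ne_of_lt (h1 _))
    · exact absurd hbc.symm (ne_of_lt (h1 _))
    · exact hX a (by simpa using ha) b (by simpa using hb) c (by simpa using hc) aab abc hac

/-- every graph with at most `n` vertices splits into `k` classes -/
def W (n k : ℕ) : Prop := ∀ G : SimpleGraph (Fin n), SubCol G k

theorem remove {V : Type} [Fintype V] {G : SimpleGraph V} {n k : ℕ} (hW : W n k) (X : Finset V)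
    (hX : Cluster G (X : Set V)) (hc : Fintype.card V ≤ n + X.card) : SubCol G (k + 1) := by
  classical
  refine subcol_insert (X : Set V) hX ?_
  refine general hW _ ?_ _
  have h1 : Fintype.card ((X : Set V)ᶜ : Set V) = Fintype.card V - X.card := by
    rw [Fintype.card_compl_set]
    simp
  have h2 : X.card ≤ Fintype.card V := Finset.card_le_univ X
  omega

theorem W21 : W 2 1 := by
  intro G
  refine subcol_of (fun _ => 0) (fun _ => by norm_num) ?_
  intro a b c _ _ h1 h2 h3
  have h4 := h1.ne
  have h5 := h2.ne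
  exfalso
  have : ∀ a b c : Fin 2, a ≠ b → b ≠ c → a ≠ c → False := by decide
  exact this a b c h4 h5 h3

/-! ### small clusters -/


theorem cluster3 {V : Type} [DecidableEq V] {G : SimpleGraph V} {a b c : V} {x y z : Bool}
    (h1 : G.Adj a b ↔ x = true) (h2 : G.Adj b c ↔ y = true) (h3 : G.Adj a c ↔ z = true) (h : T x y z = true) :
    Cluster G (({a, b, c} : Finset V) : Set V) := by
  intro p hp q hq r hr hpq hqr hpr
  simp only [Finset.coe_insert, Finset.coe_singleton, Set.mem_insert_iff, Set.mem_singleton_iff] at hp hq hr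
  have s1 := G.adj_comm a b
  have s2 := G.adj_comm b c
  have s3 := G.adj_comm a c
  have l1 := G.loopless
  cases x <;> cases y <;> cases z <;> simp [T] at h <;>
    rcases hp with rfl | rfl | rfl <;> rcases hq with rfl | rfl | rfl <;> rcases hr with rfl | rfl | rfl <;>
    simp_all

theorem quad_cluster {V : Type} [DecidableEq V] {G : SimpleGraph V} (F : ℕ → V) (e : ℕ → ℕ → Bool) {a b c d : ℕ}
    (hab : G.Adj (F a) (F b) ↔ e a b = true) (hbc : G.Adj (F b) (F c) ↔ e b c = true)
    (hac : G.Adj (F a) (F c) ↔ e a c = true) (hbd : G.Adj (F b) (F d) ↔ e b d = true)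
    (had : G.Adj (F a) (F d) ↔ e a d = true) (hcd : G.Adj (F c) (F d) ↔ e c d = true)
    (h : quad e a b c d = true) :
    Cluster G (({F a, F b, F c, F d} : Finset V) : Set V) := by
  rw [quad, Bool.and_eq_true, Bool.and_eq_true, Bool.and_eq_true] at h
  obtain ⟨⟨⟨h1, h2⟩, h3⟩, h4⟩ := h
  have c1 := cluster3 hab hbc hac h1
  have c2 := cluster3 hab hbd had h2
  have c3 := cluster3 hac hcd had h3
  have c4 := cluster3 hbc hcd hbd h4
  intro p hp q hq r hr hpq hqr hpr
  have mem1 : ∀ u, u ∈ (({F a, F b, F c} : Finset V) : Set V) ↔ (u = F a ∨ u = F b ∨ u = F c) := by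
    intro u; simp
  have mem2 : ∀ u, u ∈ (({F a, F b, F d} : Finset V) : Set V) ↔ (u = F a ∨ u = F b ∨ u = F d) := by
    intro u; simp
  have mem3 : ∀ u, u ∈ (({F a, F c, F d} : Finset V) : Set V) ↔ (u = F a ∨ u = F c ∨ u = F d) := by
    intro u; simp
  have mem4 : ∀ u, u ∈ (({F b, F c, F d} : Finset V) : Set V) ↔ (u = F b ∨ u = F c ∨ u = F d) := by
    intro u; simp
  have mem : ∀ u, u ∈ (({F a, F b, F c, F d} : Finset V) : Set V) ↔ (u = F a ∨ u = F b ∨ u = F c ∨ u = F d) := by
    intro u; simp
  rw [mem] at hp hq hr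
  have t1 := fun hp' hq' hr' => c1 p ((mem1 p).mpr hp') q ((mem1 q).mpr hq') r ((mem1 r).mpr hr') hpq hqr hpr
  have t2 := fun hp' hq' hr' => c2 p ((mem2 p).mpr hp') q ((mem2 q).mpr hq') r ((mem2 r).mpr hr') hpq hqr hpr
  have t3 := fun hp' hq' hr' => c3 p ((mem3 p).mpr hp') q ((mem3 q).mpr hq') r ((mem3 r).mpr hr') hpq hqr hpr
  have t4 := fun hp' hq' hr' => c4 p ((mem4 p).mpr hp') q ((mem4 q).mpr hq') r ((mem4 r).mpr hr') hpq hqr hpr
  clear c1 c2 c3 c4 mem1 mem2 mem3 mem4 mem h1 h2 h3 h4 hab hbc hac hbd had hcd hpq hqr hpr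
  rcases hp with hp | hp | hp | hp <;> rcases hq with hq | hq | hq | hq <;>
    rcases hr with hr | hr | hr | hr <;>
    first
    | exact t1 (by first | exact Or.inl hp | exact Or.inr (Or.inl hp) | exact Or.inr (Or.inr hp))
        (by first | exact Or.inl hq | exact Or.inr (Or.inl hq) | exact Or.inr (Or.inr hq))
        (by first | exact Or.inl hr | exact Or.inr (Or.inl hr) | exact Or.inr (Or.inr hr))
    | exact t2 (by first | exact Or.inl hp | exact Or.inr (Or.inl hp) | exact Or.inr (Or.inr hp))
        (by first | exact Or.inl hq | exact Or.inr (Or.inl hq) | exact Or.inr (Or.inr hq))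
        (by first | exact Or.inl hr | exact Or.inr (Or.inl hr) | exact Or.inr (Or.inr hr))
    | exact t3 (by first | exact Or.inl hp | exact Or.inr (Or.inl hp) | exact Or.inr (Or.inr hp))
        (by first | exact Or.inl hq | exact Or.inr (Or.inl hq) | exact Or.inr (Or.inr hq))
        (by first | exact Or.inl hr | exact Or.inr (Or.inl hr) | exact Or.inr (Or.inr hr))
    | exact t4 (by first | exact Or.inl hp | exact Or.inr (Or.inl hp) | exact Or.inr (Or.inr hp))
        (by first | exact Or.inl hq | exact Or.inr (Or.inl hq) | exact Or.inr (Or.inr hq))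
        (by first | exact Or.inl hr | exact Or.inr (Or.inl hr) | exact Or.inr (Or.inr hr))

def Emb {V : Type} (G : SimpleGraph V) (m code : ℕ) (F : ℕ → V) : Prop :=
  (∀ i < m, ∀ j < m, F i = F j → i = j) ∧ (∀ i < m, ∀ j < m, (G.Adj (F i) (F j) ↔ rb code i j = true))

theorem mask_exists (g : ℕ → Bool) : ∀ m, ∃ M < 2 ^ m, ∀ i < m, M.testBit i = g i
  | 0 => ⟨0, by norm_num, fun i hi => by omega⟩
  | m + 1 => by
    obtain ⟨M, hM, h⟩ := mask_exists g m
    rcases hg : g m with _ | _
    · refine ⟨M, lt_of_lt_of_le hM (Nat.pow_le_pow_right (by norm_num) (by omega)), fun i hi => ?_⟩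
      rcases Nat.lt_or_ge i m with h1 | h1
      · exact h i h1
      · have : i = m := by omega
        subst this
        rw [hg]
        exact Nat.testBit_lt_two_pow hM
    · refine ⟨M + 2 ^ m, by rw [pow_succ]; omega, fun i hi => ?_⟩
      rcases Nat.lt_or_ge i m with h1 | h1
      · rw [Nat.add_comm, Nat.testBit_two_pow_add_gt h1]
        exact h i h1
      · have : i = m := by omega
        subst this
        rw [hg, Nat.add_comm, Nat.testBit_two_pow_add_eq, Nat.testBit_lt_two_pow hM]
        rfl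

def NoQ {V : Type} (G : SimpleGraph V) : Prop :=
  ∀ X : Finset V, X.card = 4 → ¬ Cluster G (X : Set V)

theorem step {V : Type} {G : SimpleGraph V} (hno : NoQ G) {m : ℕ} (hm : m < 10)
    {x : ℕ × List (ℕ × ℕ × List ℕ)} (hx : x ∈ lev m) {F : ℕ → V} (hE : Emb G m x.1 F) {v : V}
    (hv : ∀ i < m, F i ≠ v) : ∃ y ∈ lev (m + 1), ∃ F', Emb G (m + 1) y.1 F' := by
  classical
  obtain ⟨M, hM, hMb⟩ := mask_exists (fun i => decide (G.Adj v (F i))) m
  set F1 : ℕ → V := fun i => if i = m then v else F i with hF1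
  have hF1m : F1 m = v := by simp [hF1]
  have hF1lt : ∀ i, i < m → F1 i = F i := by
    intro i hi
    have : i ≠ m := by omega
    simp [hF1, this]
  have hinj : ∀ i ≤ m, ∀ j ≤ m, F1 i = F1 j → i = j := by
    intro i hi j hj hij
    rcases Nat.lt_or_ge i m with h1 | h1 <;> rcases Nat.lt_or_ge j m with h2 | h2
    · rw [hF1lt i h1, hF1lt j h2] at hij
      exact hE.1 i h1 j h2 hij
    · have : j = m := by omega
      subst this
      rw [hF1lt i h1, hF1m] at hij
      exact absurd hij (hv i h1)
    · have : i = m := by omega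
      subst this
      rw [hF1lt j h2, hF1m] at hij
      exact absurd hij.symm (hv j h2)
    · omega
  have hadj : ∀ i ≤ m, ∀ j ≤ m, (G.Adj (F1 i) (F1 j) ↔ eb x.1 m M i j = true) := by
    intro i hi j hj
    rcases Nat.lt_or_ge i m with h1 | h1 <;> rcases Nat.lt_or_ge j m with h2 | h2
    · have n1 : i ≠ m := by omega
      have n2 : j ≠ m := by omega
      rw [hF1lt i h1, hF1lt j h2, hE.2 i h1 j h2]
      simp [eb, n1, n2]
    · have : j = m := by omega
      subst this
      have n1 : i ≠ j := by omega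
      rw [hF1lt i h1, hF1m, G.adj_comm]
      simp [eb, n1, hMb i h1]
    · have : i = m := by omega
      subst this
      have n1 : j ≠ i := by omega
      rw [hF1lt j h2, hF1m]
      simp [eb, n1, hMb j h2]
    · have e1 : i = m := by omega
      have e2 : j = m := by omega
      subst e1
      subst e2
      simp [eb]
  have hc := check_all m hm
  rw [check, List.all_eq_true] at hc
  have hc2 := hc x hx
  rw [List.all_eq_true] at hc2
  have hc3 := hc2 M (List.mem_range.mpr hM)
  rw [Bool.or_eq_true] at hc3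
  rcases hc3 with hvi | hce
  · exfalso
    rw [viol, List.any_eq_true] at hvi
    obtain ⟨a, ha, hvi⟩ := hvi
    rw [List.any_eq_true] at hvi
    obtain ⟨b, hb, hvi⟩ := hvi
    rw [List.any_eq_true] at hvi
    obtain ⟨c, hc', hvi⟩ := hvi
    rw [List.mem_range] at ha hb hc'
    have hcl := quad_cluster F1 (eb x.1 m M) (a := m) (b := a) (c := b) (d := c)
      (hadj m le_rfl a (by omega)) (hadj a (by omega) b (by omega)) (hadj m le_rfl b (by omega))
      (hadj a (by omega) c (by omega)) (hadj m le_rfl c (by omega)) (hadj b (by omega) c (by omega)) hvi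
    refine hno _ ?_ hcl
    have d : ∀ i j, i ≤ m → j ≤ m → i ≠ j → F1 i ≠ F1 j := fun i j hi hj hne h => hne (hinj i hi j hj h)
    rw [Finset.card_insert_of_notMem, Finset.card_insert_of_notMem, Finset.card_pair]
    · exact d b c (by omega) (by omega) (by omega)
    · simp only [Finset.mem_insert, Finset.mem_singleton, not_or]
      exact ⟨d a b (by omega) (by omega) (by omega), d a c (by omega) (by omega) (by omega)⟩
    · simp only [Finset.mem_insert, Finset.mem_singleton, not_or]
      exact ⟨d m a (by omega) (by omega) (by omega), d m b (by omega) (by omega) (by omega),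
        d m c (by omega) (by omega) (by omega)⟩
  · rw [List.any_eq_true] at hce
    obtain ⟨c, _, hce⟩ := hce
    rw [certOK, Bool.and_eq_true, Bool.and_eq_true] at hce
    obtain ⟨⟨_, hy⟩, hall⟩ := hce
    rw [List.any_eq_true] at hy
    obtain ⟨y, hy, hyc⟩ := hy
    rw [beq_iff_eq] at hyc
    rw [List.all_eq_true] at hall
    have hπ : ∀ i < m + 1, c.2.2.getD i 0 ≤ m ∧ ∀ j < m + 1, (i = j ∨ c.2.2.getD i 0 ≠ c.2.2.getD j 0) ∧
        rb c.2.1 i j = eb x.1 m M (c.2.2.getD i 0) (c.2.2.getD j 0) := by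
      intro i hi
      have h1 := hall i (List.mem_range.mpr hi)
      rw [Bool.and_eq_true, List.all_eq_true] at h1
      refine ⟨Nat.le_of_ble_eq_true h1.1, fun j hj => ?_⟩
      have h2 := h1.2 j (List.mem_range.mpr hj)
      simpa using h2
    refine ⟨y, hy, fun i => F1 (c.2.2.getD i 0), ?_, ?_⟩
    · intro i hi j hj hij
      have h1 := hinj _ (hπ i hi).1 _ (hπ j hj).1 hij
      rcases ((hπ i hi).2 j hj).1 with h | h
      · exact h
      · exact absurd h1 h
    · intro i hi j hj
      rw [hyc, ((hπ i hi).2 j hj).2]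
      exact hadj _ (hπ i hi).1 _ (hπ j hj).1

theorem chain {V : Type} [Fintype V] {G : SimpleGraph V} (hno : NoQ G) (v0 : V) :
    ∀ m ≤ 10, m ≤ Fintype.card V → ∃ x ∈ lev m, ∃ F, Emb G m x.1 F
  | 0, _, _ => by
    refine ⟨(0, [(0, 0, [0])]), by decide, fun _ => v0, ?_, ?_⟩
    · intro i hi; omega
    · intro i hi; omega
  | m + 1, hm, hV => by
    classical
    obtain ⟨x, hx, F, hE⟩ := chain hno v0 m (by omega) (by omega)
    have hex : ∃ v, ∀ i < m, F i ≠ v := by
      by_contra hcon
      push Not at hcon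
      have h1 : (Finset.univ : Finset V) ⊆ (Finset.range m).image F := by
        intro v _
        obtain ⟨i, hi, hiv⟩ := hcon v
        exact Finset.mem_image.mpr ⟨i, Finset.mem_range.mpr hi, hiv⟩
      have h2 := Finset.card_le_card h1
      have h3 : ((Finset.range m).image F).card ≤ m := by
        simpa using Finset.card_image_le (s := Finset.range m) (f := F)
      rw [Finset.card_univ] at h2
      omega
    obtain ⟨v, hv⟩ := hex
    exact step hno (by omega) hx hE hv

theorem four_cluster {V : Type} [Fintype V] (G : SimpleGraph V) (hV : 10 ≤ Fintype.card V) : ¬ NoQ G := by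
  intro hno
  obtain ⟨v0⟩ : Nonempty V := Fintype.card_pos_iff.mp (by omega)
  obtain ⟨x, hx, _⟩ := chain hno v0 10 le_rfl hV
  have : lev 10 = [] := by decide
  rw [this] at hx
  exact absurd hx (by simp)

/-! ### the values -/

theorem W52 : W 5 2 := by
  intro G
  classical
  have e : ∀ i j : Fin 5, G.Adj i j ↔ decide (G.Adj i j) = true := fun i j => by simp
  have key : ∀ x01 x02 x03 x04 x12 x13 x14 x23 x24 x34 : Bool,
      (T x01 x12 x02 = true ∨ T x01 x13 x03 = true ∨ T x01 x14 x04 = true ∨ T x02 x23 x03 = true ∨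
      T x02 x24 x04 = true ∨ T x03 x34 x04 = true ∨ T x12 x23 x13 = true ∨ T x12 x24 x14 = true ∨
      T x13 x34 x14 = true ∨ T x23 x34 x24 = true) := by decide +kernel
  have fin : ∀ a b c : Fin 5, a ≠ b → a ≠ c → b ≠ c →
      T (decide (G.Adj a b)) (decide (G.Adj b c)) (decide (G.Adj a c)) = true → SubCol G 2 := by
    intro a b c hab hac hbc hT
    refine remove W21 ({a, b, c} : Finset (Fin 5)) (cluster3 (e a b) (e b c) (e a c) hT) ?_
    have : ({a, b, c} : Finset (Fin 5)).card = 3 := by
      rw [Finset.card_insert_of_notMem, Finset.card_pair hbc]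
      simp [hab, hac]
    rw [this]
    simp
  rcases key (decide (G.Adj 0 1)) (decide (G.Adj 0 2)) (decide (G.Adj 0 3)) (decide (G.Adj 0 4))
    (decide (G.Adj 1 2)) (decide (G.Adj 1 3)) (decide (G.Adj 1 4)) (decide (G.Adj 2 3)) (decide (G.Adj 2 4))
    (decide (G.Adj 3 4)) with h | h | h | h | h | h | h | h | h | h
  · exact fin 0 1 2 (by decide) (by decide) (by decide) h
  · exact fin 0 1 3 (by decide) (by decide) (by decide) h
  · exact fin 0 1 4 (by decide) (by decide) (by decide) h
  · exact fin 0 2 3 (by decide) (by decide) (by decide) h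
  · exact fin 0 2 4 (by decide) (by decide) (by decide) h
  · exact fin 0 3 4 (by decide) (by decide) (by decide) h
  · exact fin 1 2 3 (by decide) (by decide) (by decide) h
  · exact fin 1 2 4 (by decide) (by decide) (by decide) h
  · exact fin 1 3 4 (by decide) (by decide) (by decide) h
  · exact fin 2 3 4 (by decide) (by decide) (by decide) h

theorem W93 : W 9 3 := by
  intro G
  classical
  by_cases hno : NoQ G
  · obtain ⟨x, hx, F, hE⟩ := chain hno 0 9 (by norm_num) (by simp)
    obtain ⟨c, _, _, hval⟩ := check_cols x hx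
    have hsurj : ∀ v : Fin 9, ∃ i, i < 9 ∧ F i = v := by
      intro v
      have h1 : (Finset.range 9).image F = Finset.univ := by
        apply Finset.eq_univ_of_card
        rw [Finset.card_image_of_injOn]
        · simp
        · intro i hi j hj hij
          exact hE.1 i (by simpa using hi) j (by simpa using hj) hij
      have h2 : v ∈ (Finset.range 9).image F := by rw [h1]; simp
      obtain ⟨i, hi, hiv⟩ := Finset.mem_image.mp h2
      exact ⟨i, by simpa using hi, hiv⟩
    choose g hg9 hgF using hsurj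
    rw [valid9, List.all_eq_true] at hval
    refine subcol_of (fun v => c.2.getD (g v) 0) ?_ ?_
    · intro v
      have h1 := hval (g v) (List.mem_range.mpr (hg9 v))
      rw [Bool.and_eq_true] at h1
      exact Nat.lt_of_lt_of_le (by simpa [Nat.blt] using h1.1) le_rfl
    · intro a b d hab hbd aab abd had
      have h1 := hval (g a) (List.mem_range.mpr (hg9 a))
      rw [Bool.and_eq_true, List.all_eq_true] at h1
      have h2 := h1.2 (g b) (List.mem_range.mpr (hg9 b))
      rw [List.all_eq_true] at h2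
      have h3 := h2 (g d) (List.mem_range.mpr (hg9 d))
      have r1 : rb x.1 (g a) (g b) = true := (hE.2 _ (hg9 a) _ (hg9 b)).mp (by rw [hgF, hgF]; exact aab)
      have r2 : rb x.1 (g b) (g d) = true := (hE.2 _ (hg9 b) _ (hg9 d)).mp (by rw [hgF, hgF]; exact abd)
      have r3 : g a ≠ g d := by
        intro h
        apply had
        rw [← hgF a, ← hgF d, h]
      have r4 : rb x.1 (g a) (g d) = true := by
        have hab' : c.2.getD (g a) 0 = c.2.getD (g b) 0 := hab
        have hbd' : c.2.getD (g b) 0 = c.2.getD (g d) 0 := hbd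
        simp only [hab', hbd', r1, r2, beq_self_eq_true, Bool.and_self, Bool.true_and,
          Bool.or_eq_true, Bool.not_eq_true', bne_eq_false_iff_eq] at h3
        rcases h3 with h | h
        · exact absurd h r3
        · exact h
      have := (hE.2 _ (hg9 a) _ (hg9 d)).mpr r4
      rwa [hgF, hgF] at this
  · rw [NoQ] at hno
    push Not at hno
    obtain ⟨X, hX, hcl⟩ := hno
    exact remove W52 X hcl (by rw [hX]; simp)

theorem W_mono {n k l : ℕ} (h : W n k) (hkl : k ≤ l) : W n l := fun G => subcol_mono (h G) hkl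

theorem W_down {m n k : ℕ} (h : W n k) (hmn : m ≤ n) : W m k := fun G => general h _ (by simpa using hmn) G

theorem W_step {n k : ℕ} (hn : 6 ≤ n) (h : W n k) : W (n + 4) (k + 1) := by
  intro G
  have h1 := four_cluster G (by simp; omega)
  rw [NoQ] at h1
  push Not at h1
  obtain ⟨X, hX, hcl⟩ := h1
  exact remove h X hcl (by rw [hX]; simp)

/-! ### the lower bound -/

theorem lower_aux : ∀ (k : ℕ) (f : ℕ → ℕ → ℕ) (C : Finset ℕ), (∀ i < k, ∀ j ≤ i, f i j ∈ C) →
    (∀ i < k, ∀ j ≤ i, ∀ j' ≤ i, ∀ i' < k, ∀ l ≤ i', i' ≠ i → j ≠ j' → f i j = f i' l → f i j = f i j' → False) →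
    k ≤ C.card
  | 0, _, _, _, _ => Nat.zero_le _
  | k + 1, f, C, hC, h => by
    by_cases hinj : ∀ j ≤ k, ∀ j' ≤ k, f k j = f k j' → j = j'
    · have h1 : (Finset.range (k + 1)).card ≤ C.card := by
        apply Finset.card_le_card_of_injOn (f k)
        · intro j hj
          have hj' : j < k + 1 := by simpa using hj
          exact hC k (by omega) j (by omega)
        · intro j hj j' hj' hjj
          have h2 : j < k + 1 := by simpa using hj
          have h3 : j' < k + 1 := by simpa using hj'
          exact hinj j (by omega) j' (by omega) hjj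
      simpa using h1
    · push Not at hinj
      obtain ⟨j, hj, j', hj', hf, hne⟩ := hinj
      have h1 : ∀ i < k, ∀ l ≤ i, f i l ≠ f k j := by
        intro i hi l hl heq
        exact h k (by omega) j hj j' hj' i (by omega) l hl (by omega) hne heq.symm hf
      have h2 : k ≤ (C.erase (f k j)).card := by
        apply lower_aux k f
        · intro i hi l hl
          exact Finset.mem_erase.mpr ⟨h1 i hi l hl, hC i (by omega) l hl⟩
        · intro i hi a ha b hb i' hi' l hl
          exact h i (by omega) a ha b hb i' (by omega) l hl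
      have h3 := Finset.card_erase_of_mem (hC k (by omega) j hj)
      have h4 : 0 < C.card := Finset.card_pos.mpr ⟨_, hC k (by omega) j hj⟩
      omega

/-- the complete multipartite graph with parts of sizes `1, 2, …, k` -/
def MP (k : ℕ) : SimpleGraph (Σ i : Fin k, Fin (i.1 + 1)) where
  Adj x y := x.1 ≠ y.1
  symm := ⟨fun _ _ h => h.symm⟩
  loopless := ⟨fun _ h => h rfl⟩

theorem MP_lower {k l : ℕ} (h : SubCol (MP k) l) : k ≤ l := by
  obtain ⟨f, h1, h2⟩ := subcol_out h
  have := lower_aux k (fun i j => if hh : i < k ∧ j < i + 1 then f ⟨⟨i, hh.1⟩, ⟨j, hh.2⟩⟩ else 0) (Finset.range l) ?_ ?_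
  · simpa using this
  · intro i hi j hj
    have hh : i < k ∧ j < i + 1 := ⟨hi, by omega⟩
    simp only [hh, and_self, dif_pos]
    exact Finset.mem_range.mpr (h1 _)
  · intro i hi j hj j' hj' i' hi' m hm hii hjj e1 e2
    have a1 : i < k ∧ j < i + 1 := ⟨hi, by omega⟩
    have a2 : i < k ∧ j' < i + 1 := ⟨hi, by omega⟩
    have a3 : i' < k ∧ m < i' + 1 := ⟨hi', by omega⟩
    simp only [a1, a2, a3, and_self, dif_pos] at e1 e2
    have := h2 ⟨⟨i, a1.1⟩, ⟨j, a1.2⟩⟩ ⟨⟨i', a3.1⟩, ⟨m, a3.2⟩⟩ ⟨⟨i, a2.1⟩, ⟨j', a2.2⟩⟩ e1 (by rw [← e1, ← e2])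
      (by
        show (⟨i, _⟩ : Fin k) ≠ ⟨i', _⟩
        intro hc
        exact hii (congrArg Fin.val hc).symm)
      (by
        show (⟨i', _⟩ : Fin k) ≠ ⟨i, _⟩
        intro hc
        exact hii (congrArg Fin.val hc))
      (by
        intro hc
        rw [Sigma.mk.injEq] at hc
        exact hjj (congrArg Fin.val (eq_of_heq hc.2)))
    exact this rfl

theorem lower {k n : ℕ} (h : k * (k + 1) / 2 ≤ n) : k ≤ S n := by
  by_contra hlt
  push Not at hlt
  have hW : W n (S n) := S_le_iff.mp le_rfl
  have hcard : Fintype.card (Σ i : Fin k, Fin (i.1 + 1)) = k * (k + 1) / 2 := by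
    rw [Fintype.card_sigma]
    simp only [Fintype.card_fin]
    rw [Fin.sum_univ_eq_sum_range (fun i => i + 1) k]
    have : ∀ k, (∑ i ∈ Finset.range k, (i + 1)) * 2 = k * (k + 1) := by
      intro k
      induction k with
      | zero => simp
      | succ k ih => rw [Finset.sum_range_succ, add_mul, ih]; ring
    have := this k
    omega
  have := MP_lower (general hW _ (by rw [hcard]; exact h) (MP k))
  omega

theorem upper {n k : ℕ} (h : W n k) : S n ≤ k := S_le_iff.mpr h

theorem W_of_S {n : ℕ} : W n (S n) := S_le_iff.mp le_rfl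

/-- `S(n)` is the largest `k` with `k(k+1)/2 ≤ n` for `1 ≤ n ≤ 17`, `n ≠ 14`, and for `n = 21`; general bounds -/
theorem result :
    (∀ n, (1 ≤ n ∧ n ≤ 17 ∧ n ≠ 14) ∨ n = 21 →
      ∀ k, k * (k + 1) / 2 ≤ n → n < (k + 1) * (k + 2) / 2 → S n = k) ∧
    (S 14 = 4 ∨ S 14 = 5) ∧
    (∀ n, 18 ≤ n → n ≤ 20 → S n = 5 ∨ S n = 6) ∧
    (∀ k n, k * (k + 1) / 2 ≤ n → k ≤ S n) ∧
    (∀ n, 6 ≤ n → S (n + 4) ≤ S n + 1) := by
  have w2 : W 2 1 := W21
  have w13 : W 13 4 := W_step (by norm_num) W93
  have w17 : W 17 5 := W_step (by norm_num) w13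
  have w21 : W 21 6 := W_step (by norm_num) w17
  refine ⟨?_, ?_, ?_, fun k n h => lower h, fun n hn => upper (W_step hn W_of_S)⟩
  · intro n hn k hk1 hk2
    apply le_antisymm _ (lower hk1)
    apply upper
    have hk6 : k ≤ 6 := by
      by_contra h
      have : 7 * 8 / 2 ≤ k * (k + 1) / 2 := Nat.div_le_div_right (Nat.mul_le_mul (by omega) (by omega))
      omega
    interval_cases k
    · omega
    · exact W_down w2 (by omega)
    · exact W_down W52 (by omega)
    · exact W_down W93 (by omega)
    · exact W_down w13 (by omega)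
    · exact W_down w17 (by omega)
    · exact W_down w21 (by omega)
  · have h1 : 4 ≤ S 14 := lower (by norm_num)
    have h2 : S 14 ≤ 5 := upper (W_down w17 (by norm_num))
    omega
  · intro n h18 h20
    have h1 : 5 ≤ S n := lower (by omega)
    have h2 : S n ≤ 6 := upper (W_down w21 (by omega))
    omega

end Pool.Agent.Results.MP_02b0aa_co.SmallValues
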